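import Pool.Agent.helper96.S5.SpecR

/-! Row s5:CHS (helper92). -/

set_option autoImplicit false

namespace S5

open PF

noncomputable section

open Classical

theorem CHS_count : Computable fun x : List ℕ × ℕ => x.1.count x.2 := by
  have hh : Primrec₂ fun (x : List ℕ × ℕ) (y : ℕ × ℕ) => if y.1 = x.2 then y.2 + 1 else y.2 := by
    refine Primrec.ite ?_ ?_ ?_
    · exact Primrec.eq.comp (Primrec.fst.comp Primrec.snd) (Primrec.snd.comp Primrec.fst)
    · exact Primrec.succ.comp (Primrec.snd.comp Primrec.snd)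
    · exact Primrec.snd.comp Primrec.snd
  have h1 : Primrec fun x : List ℕ × ℕ =>
      x.1.foldr (fun b s => if b = x.2 then s + 1 else s) 0 :=
    Primrec.list_foldr Primrec.fst (Primrec.const 0) hh
  refine h1.to_comp.of_eq fun x => ?_
  obtain ⟨l, a⟩ := x
  show l.foldr (fun b s => if b = a then s + 1 else s) 0 = l.count a
  induction l with
  | nil => rfl
  | cons b l ih =>
    rw [List.foldr_cons, ih, List.count_cons]
    by_cases h : b = a
    · simp [h]
    · simp [h]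

theorem CHS_amo (A : ℕ → ℕ → List ℕ → ℕ → Prop) (bd : (ℕ × ℕ) × List ℕ → ℕ)
    (hA : ComputablePred fun x : ((ℕ × ℕ) × List ℕ) × ℕ => A x.1.1.1 x.1.1.2 x.1.2 x.2) (hbd : Computable bd)
    (hb : ∀ k t H, (∃ n, A k t H n) → ∃ n, n ≤ bd ((k, t), H) ∧ A k t H n) :
    Computable fun x : (ℕ × ℕ) × List ℕ => amo (A x.1.1 x.1.2 x.2) x.2 := by
  have hP : ComputablePred fun x : (ℕ × ℕ) × List ℕ => ∃ n, A x.1.1 x.1.2 x.2 n := by
    have h1 := cp_bex (p := fun (x : (ℕ × ℕ) × List ℕ) (n : ℕ) => A x.1.1 x.1.2 x.2 n) hA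
      (Computable.succ.comp hbd)
    refine h1.of_eq fun x => ?_
    constructor
    · rintro ⟨n, -, hn⟩
      exact ⟨n, hn⟩
    · intro h
      obtain ⟨n, hn, hn2⟩ := hb _ _ _ h
      exact ⟨n, Nat.lt_succ_of_le hn, hn2⟩
  have hc : Computable fun x : ((ℕ × ℕ) × List ℕ) × ℕ => x.2 + x.1.2.count (x.2 + 1) := by
    have h1 : Computable fun x : ((ℕ × ℕ) × List ℕ) × ℕ => x.1.2.count (x.2 + 1) :=
      CHS_count.comp ((Computable.snd.comp Computable.fst).pair (Computable.succ.comp Computable.snd))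
    exact Primrec.nat_add.to_comp.comp Computable.snd h1
  have hQ : ComputablePred fun x : ((ℕ × ℕ) × List ℕ) × ℕ => A x.1.1.1 x.1.1.2 x.1.2 x.2 ∧
      ∀ n', A x.1.1.1 x.1.1.2 x.1.2 n' → x.2 + x.1.2.count (x.2 + 1) ≤ n' + x.1.2.count (n' + 1) := by
    refine cp_and hA ?_
    have hg : Computable fun y : (((ℕ × ℕ) × List ℕ) × ℕ) × ℕ => (y.1.1, y.2) :=
      (Computable.fst.comp Computable.fst).pair Computable.snd
    have hg1 : Computable fun y : (((ℕ × ℕ) × List ℕ) × ℕ) × ℕ => y.1.2 + y.1.1.2.count (y.1.2 + 1) :=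
      Computable.comp (f := fun x : ((ℕ × ℕ) × List ℕ) × ℕ => x.2 + x.1.2.count (x.2 + 1))
        (g := fun y : (((ℕ × ℕ) × List ℕ) × ℕ) × ℕ => y.1) hc Computable.fst
    have hg2 : Computable fun y : (((ℕ × ℕ) × List ℕ) × ℕ) × ℕ => y.2 + y.1.1.2.count (y.2 + 1) :=
      Computable.comp (f := fun x : ((ℕ × ℕ) × List ℕ) × ℕ => x.2 + x.1.2.count (x.2 + 1))
        (g := fun y : (((ℕ × ℕ) × List ℕ) × ℕ) × ℕ => (y.1.1, y.2)) hc hg
    have hg3 : ComputablePred fun y : (((ℕ × ℕ) × List ℕ) × ℕ) × ℕ => A y.1.1.1.1 y.1.1.1.2 y.1.1.2 y.2 :=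
      cp_comp (f := fun y : (((ℕ × ℕ) × List ℕ) × ℕ) × ℕ => (y.1.1, y.2))
        (p := fun x : ((ℕ × ℕ) × List ℕ) × ℕ => A x.1.1.1 x.1.1.2 x.1.2 x.2) hg hA
    have h1 : ComputablePred fun y : (((ℕ × ℕ) × List ℕ) × ℕ) × ℕ =>
        ¬ A y.1.1.1.1 y.1.1.1.2 y.1.1.2 y.2 ∨
          y.1.2 + y.1.1.2.count (y.1.2 + 1) ≤ y.2 + y.1.1.2.count (y.2 + 1) :=
      cp_or (cp_not hg3) (cp_le hg1 hg2)
    have h2 := cp_ball (p := fun (x : ((ℕ × ℕ) × List ℕ) × ℕ) (n' : ℕ) => ¬ A x.1.1.1 x.1.1.2 x.1.2 n' ∨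
          x.2 + x.1.2.count (x.2 + 1) ≤ n' + x.1.2.count (n' + 1)) h1 hc
    refine h2.of_eq fun x => ?_
    constructor
    · intro h n' hn'
      rcases Nat.lt_or_ge n' (x.2 + x.1.2.count (x.2 + 1)) with h3 | h3
      · rcases h n' h3 with h4 | h4
        · exact absurd hn' h4
        · exact h4
      · exact h3.trans (Nat.le_add_right _ _)
    · intro h n' _
      by_cases h4 : A x.1.1.1 x.1.1.2 x.1.2 n'
      · exact Or.inr (h n' h4)
      · exact Or.inl h4
  have hL : Computable fun x : (ℕ × ℕ) × List ℕ => lst (fun n => A x.1.1 x.1.2 x.2 n ∧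
      ∀ n', A x.1.1 x.1.2 x.2 n' → n + x.2.count (n + 1) ≤ n' + x.2.count (n' + 1)) := by
    refine cp_lst (Q := fun (x : (ℕ × ℕ) × List ℕ) (n : ℕ) => A x.1.1 x.1.2 x.2 n ∧
      ∀ n', A x.1.1 x.1.2 x.2 n' → n + x.2.count (n + 1) ≤ n' + x.2.count (n' + 1))
      (b := fun x => bd x + x.2.length) hQ ?_ ?_
    · exact Primrec.nat_add.to_comp.comp hbd (Computable.list_length.comp Computable.snd)
    · rintro x ⟨n, hn, hmin⟩
      refine ⟨n, ?_, hn, hmin⟩
      obtain ⟨m, hm, hm2⟩ := hb _ _ _ ⟨n, hn⟩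
      have h1 := hmin m hm2
      have h2 : x.2.count (m + 1) ≤ x.2.length := List.count_le_length
      have h3 : m ≤ bd x := hm
      omega
  exact cp_ite hP (Computable.succ.comp hL) (Computable.const 0)

theorem CHS_row : CHS_stmt := by
  intro A bd hA hbd hb
  have hamo := CHS_amo A bd hA hbd hb
  have hH : Computable fun x : ℕ × ℕ => hst (A x.1) x.2 := by
    have hh : Computable₂ fun (x : ℕ × ℕ) (y : ℕ × List ℕ) => amo (A x.1 y.1 y.2) y.2 :: y.2 := by
      have h1 : Computable fun z : (ℕ × ℕ) × (ℕ × List ℕ) => amo (A z.1.1 z.2.1 z.2.2) z.2.2 :=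
        hamo.comp (((Computable.fst.comp Computable.fst).pair (Computable.fst.comp Computable.snd)).pair
          (Computable.snd.comp Computable.snd))
      exact Computable.list_cons.comp h1 (Computable.snd.comp Computable.snd)
    have h2 := Computable.nat_rec (f := fun x : ℕ × ℕ => x.2) (g := fun _ => ([] : List ℕ))
      Computable.snd (Computable.const []) hh
    refine h2.of_eq fun x => ?_
    obtain ⟨k, t⟩ := x
    induction t with
    | zero => rfl
    | succ t ih =>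
      show amo (A k t _) _ :: _ = amo (A k t (hst (A k) t)) (hst (A k) t) :: hst (A k) t
      have ih' : (Nat.rec (motive := fun _ => List ℕ) ([] : List ℕ)
        (fun y IH => amo (A k y IH) IH :: IH) t) = hst (A k) t := ih
      rw [← ih']
  refine ⟨hH, ?_⟩
  exact hamo.comp (Computable.id.pair hH)

end

end S5
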