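import Pool.Agent.helper96.S5.SpecL

/-! Row s5:PQX (helper92). -/

set_option autoImplicit false

namespace S5

open PF

theorem PQX_pat1 (n : ℕ) (b : Bool) (q : List Bool) (h : Pat (n + 1) b q) : Pat (n + 1) b (b :: q) := by
  obtain ⟨k, q', rfl, h2⟩ := h
  exact ⟨k + 1, q', by rw [List.replicate_succ (n := k + 1), List.cons_append], h2⟩

theorem PQX_pat2 (n : ℕ) (b : Bool) (q : List Bool) (h : Pat n (!b) q) : Pat (n + 1) b (b :: q) :=
  ⟨0, q, rfl, h⟩

theorem PQX_ex (L : Type) [Lattice L] [BoundedOrder L] (n m : ℕ) (b : Bool) (P : Pp L)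
    (hp : ∀ q, Pat m b q → Pat n false (false :: q)) (h : Rp L m b P) :
    Rp L n false (fun δ e => ∃ x, P δ (cns x e)) := by
  obtain ⟨q, μ, h1, h2⟩ := h
  exact ⟨false :: q, μ, hp q h1, fun δ e => exists_congr fun x => h2 δ (cns x e)⟩

theorem PQX_all (L : Type) [Lattice L] [BoundedOrder L] (n m : ℕ) (b : Bool) (P : Pp L)
    (hp : ∀ q, Pat m b q → Pat n true (true :: q)) (h : Rp L m b P) :
    Rp L n true (fun δ e => ∀ x, P δ (cns x e)) := by
  obtain ⟨q, μ, h1, h2⟩ := h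
  exact ⟨true :: q, μ, hp q h1, fun δ e => forall_congr' fun x => h2 δ (cns x e)⟩

theorem PQX_row : PQX_stmt := by
  intro L _ _ n P
  exact ⟨PQX_ex L _ _ _ P (fun q h => PQX_pat1 n false q h), PQX_ex L _ _ _ P (fun q h => PQX_pat2 n false q h),
    PQX_all L _ _ _ P (fun q h => PQX_pat1 n true q h), PQX_all L _ _ _ P (fun q h => PQX_pat2 n true q h)⟩

end S5
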